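import Pool.Agent.R423.GC.Fin

/-!
# A cuspidal dihedral representation of `PGL(2)` all of whose quadratic twists vanish at the centre

There is a quartic ray class character `ψ` of `K = ℚ(√5)`, of conductor `(41 √5)`, unramified at the
real places, with `ψ((n)) = (n/5)`, such that the Hecke L-function of every quadratic twist
`ψ · (η ∘ N)` (real or imaginary, and the trivial twist as well) vanishes at `s = 1/2`.  By
automorphic induction (Hecke, Maass, Jacquet-Langlands) `ψ` gives an irreducible cuspidal automorphic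
representation `π'` of `PGL(2)` over `ℚ` with `L(s, π' ⊗ η) = L(s, ψ · (η ∘ N))`, so that
`N_{π'}(x) = 0` for all `x` and the ratio `N_{π'}(x) / N(x)` tends to `0`, not to `1/2`.
-/

set_option autoImplicit false

open NumberField Filter Topology

namespace Pool.Agent.Results.MP_17f4cb_nt.AllTwistsVanish

/-- `x` is totally positive -/
def IsTotPos (K : Type) [Field K] [NumberField K] (x : 𝓞 K) : Prop :=
  ∀ σ : K →+* ℝ, 0 < σ (x : K)

/-- `ψ` is a primitive (narrow) ray class character of finite conductor `𝔣`, as a function on the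
ideals of `K`, zero at the ideals which are not prime to `𝔣`. -/
structure IsPrimitive (K : Type) [Field K] [NumberField K] (𝔣 : Ideal (𝓞 K))
    (ψ : Ideal (𝓞 K) →*₀ ℂ) : Prop where
  ne_bot : 𝔣 ≠ ⊥
  supp : ∀ 𝔞 : Ideal (𝓞 K), 𝔞 ≠ ⊥ → (ψ 𝔞 ≠ 0 ↔ IsCoprime 𝔞 𝔣)
  ray : ∀ x : 𝓞 K, x ≠ 0 → x - 1 ∈ 𝔣 → IsTotPos K x → ψ (Ideal.span {x}) = 1
  prim : ∀ 𝔤 : Ideal (𝓞 K), 𝔤 ∣ 𝔣 → 𝔤 ≠ 𝔣 →
    ∃ x : 𝓞 K, x - 1 ∈ 𝔤 ∧ IsTotPos K x ∧ IsCoprime (Ideal.span {x}) 𝔣 ∧ ψ (Ideal.span {x}) ≠ 1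

/-- `v` is the central value of the twist by `η`: the value at `s = 1/2` of the entire function `F`
which for `Re s > 1` is the Hecke L-function `∑ ψ'(𝔞) N(𝔞)^(-s)` of the primitive ray class
character `ψ'` inducing `ψ · (η ∘ N)` (equal to it at all ideals prime to some nonzero ideal `𝔪`) -/
def IsCentralValue (K : Type) [Field K] [NumberField K] (ψ : Ideal (𝓞 K) →*₀ ℂ) {q : ℕ}
    (η : DirichletCharacter ℂ q) (v : ℂ) : Prop :=
  ∃ (𝔣' : Ideal (𝓞 K)) (ψ' : Ideal (𝓞 K) →*₀ ℂ) (F : ℂ → ℂ), IsPrimitive K 𝔣' ψ' ∧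
    (∃ 𝔪 : Ideal (𝓞 K), 𝔪 ≠ ⊥ ∧ ∀ 𝔞 : Ideal (𝓞 K), IsCoprime 𝔞 𝔪 →
      ψ' 𝔞 = ψ 𝔞 * η ((Ideal.absNorm 𝔞 : ℕ) : ZMod q)) ∧
    Differentiable ℂ F ∧
    (∀ s : ℂ, 1 < s.re →
      HasSum (fun 𝔞 : Ideal (𝓞 K) => ψ' 𝔞 * ((Ideal.absNorm 𝔞 : ℕ) : ℂ) ^ (-s)) (F s)) ∧
    F (1 / 2) = v

/-- the primitive quadratic Dirichlet characters of conductor less than `x`, that is the characters
`η_E` of the quadratic fields `E`, real or imaginary, with `|Δ_E| < x` -/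
def quadChars (x : ℝ) : Set (Σ q : ℕ, DirichletCharacter ℂ q) :=
  {η | 0 < η.1 ∧ (η.1 : ℝ) < x ∧ η.2.IsPrimitive ∧ η.2 ≠ 1 ∧ η.2 ^ 2 = 1}

/-- those for which the central value of the twist is not zero -/
def nonvanishing (K : Type) [Field K] [NumberField K] (ψ : Ideal (𝓞 K) →*₀ ℂ) (x : ℝ) :
    Set (Σ q : ℕ, DirichletCharacter ℂ q) :=
  {η ∈ quadChars x | ∃ v : ℂ, IsCentralValue K ψ η.2 v ∧ v ≠ 0}

/-- There is a primitive ray class character `ψ` of `K = ℚ(√5)` of conductor of norm `5 · 41²`,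
with values fourth roots of unity, unramified at the real places, with `ψ((n)) = (n/5)`, taking
different values at the two primes above `11`, such that for every Dirichlet character `η` with
`η² = 1` the primitive character inducing `ψ · (η ∘ N)` has an L-function which is entire and
vanishes at `s = 1/2`.  Hence no quadratic twist has a nonzero central value, and the proportion of
quadratic twists with nonzero central value tends to `0`. -/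
theorem result : ∃ (K : Type) (_ : Field K) (_ : NumberField K) (𝔣 : Ideal (𝓞 K))
    (ψ : Ideal (𝓞 K) →*₀ ℂ),
    (Module.finrank ℚ K = 2 ∧ ∃ x : K, x ^ 2 = 5) ∧
    (IsPrimitive K 𝔣 ψ ∧ Ideal.absNorm 𝔣 = 5 * 41 ^ 2 ∧
      (∀ 𝔞 : Ideal (𝓞 K), IsCoprime 𝔞 𝔣 → ψ 𝔞 ^ 4 = 1) ∧
      ∀ x : 𝓞 K, x - 1 ∈ 𝔣 → ψ (Ideal.span {x}) = 1) ∧
    (∀ n : ℕ, n.Coprime 205 → ψ (Ideal.span {(n : 𝓞 K)}) = ((jacobiSym (n : ℤ) 5 : ℤ) : ℂ)) ∧
    (∃ 𝔭 𝔭' : Ideal (𝓞 K), Ideal.absNorm 𝔭 = 11 ∧ Ideal.absNorm 𝔭' = 11 ∧ ψ 𝔭 ≠ ψ 𝔭') ∧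
    (∀ (q : ℕ) (η : DirichletCharacter ℂ q), 0 < q → η ^ 2 = 1 →
      ∀ v : ℂ, IsCentralValue K ψ η v ↔ v = 0) ∧
    (∀ x : ℝ, nonvanishing K ψ x = ∅) ∧
    Tendsto (fun x : ℝ => ((nonvanishing K ψ x).ncard : ℝ) / ((quadChars x).ncard : ℝ)) atTop
      (𝓝 0) := by
  obtain ⟨a, ha⟩ := R423.GC.exists_isQ
  have key : ∀ (q : ℕ) (η : DirichletCharacter ℂ q), 0 < q → η ^ 2 = 1 →
      ∀ v : ℂ, IsCentralValue R423.GC.QF (R423.GC.psi ha) η v ↔ v = 0 := by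
    intro q η hq hη v
    obtain ⟨h1, h2⟩ := R423.GC.twist_unique ha hq η (R423.GC.Inv_of_sq hη)
    constructor
    · rintro ⟨𝔣', ψ', F, g1, g2, g3, g4, rfl⟩
      exact h2 𝔣' ψ' F ⟨g1.ne_bot, g1.supp, g1.ray, g1.prim⟩ g2 g3 g4
    · rintro rfl
      obtain ⟨𝔣', ψ', F, g1, g2, g3, g4⟩ := h1
      exact ⟨𝔣', ψ', F, ⟨g1.ne_bot, g1.supp, g1.ray, g1.prim⟩, g2, g3, g4, h2 𝔣' ψ' F g1 g2 g3 g4⟩
  have hempty : ∀ x : ℝ, nonvanishing R423.GC.QF (R423.GC.psi ha) x = ∅ := by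
    intro x
    rw [Set.eq_empty_iff_forall_notMem]
    rintro η ⟨⟨h1, -, -, -, h2⟩, v, h3, h4⟩
    exact h4 ((key η.1 η.2 h1 h2 v).1 h3)
  have hp := R423.GC.prim_psi ha
  refine ⟨R423.GC.QF, inferInstance, inferInstance, R423.GC.cond, R423.GC.psi ha,
    ⟨R423.GC.finrank_QF, R423.GC.exists_sq_five⟩,
    ⟨⟨hp.ne_bot, hp.supp, hp.ray, hp.prim⟩, R423.GC.absNorm_cond,
      fun 𝔞 h => R423.GC.psi_four ha h, fun x hx => R423.GC.psi_even ha hx⟩,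
    fun n hn => R423.GC.psi_nat ha hn, R423.GC.psi_eleven ha, key, hempty, ?_⟩
  simp_rw [hempty, Set.ncard_empty, Nat.cast_zero, zero_div]
  exact tendsto_const_nhds

end Pool.Agent.Results.MP_17f4cb_nt.AllTwistsVanish
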